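import Pool.Agent.Lib.MP_fce888_co.S.AbcPath

set_option autoImplicit false

/-!
# MP_fce888_co: balls of radius `R` in a cubic graph have at most `3 * 2 ^ R` vertices
-/

namespace Pool.Agent.Lib.MP_fce888_co.C46

open Finset Pool.Agent.Lib.MP_fce888_co Pool.Agent.Lib.MP_fce888_co.S
open scoped Classical

variable {V : Type} [Fintype V]

theorem pf_succ_card {G : SimpleGraph V} (hcub : ∀ v, (G.neighborSet v).ncard = 3) (t : ℕ)
    (v : V) : (pf G (t + 1) v).card ≤ 3 * 2 ^ t := by
  have hsub : pf G (t + 1) v ⊆ (univ.filter fun w => G.Adj v w).biUnion fun w =>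
        ((pf G t w).filter fun l => v ∉ l).image (List.cons v) := by
    intro l hl
    obtain ⟨w, l', rfl, hvw, hl', hv⟩ := pf_cons hl
    rw [mem_biUnion]
    exact ⟨w, by simpa using hvw, mem_image_of_mem _ (mem_filter.2 ⟨hl', hv⟩)⟩
  refine (card_le_card hsub).trans (card_biUnion_le.trans ?_)
  calc ∑ w ∈ (univ.filter fun w => G.Adj v w),
        (((pf G t w).filter fun l => v ∉ l).image (List.cons v)).card
      ≤ ∑ w ∈ (univ.filter fun w => G.Adj v w), 2 ^ t := by
        refine sum_le_sum fun w hw => card_image_le.trans (pf_avoid_card hcub t v w ?_)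
        simpa using (mem_filter.1 hw).2.symm
    _ = 3 * 2 ^ t := by rw [sum_const, nb_card (hcub v)]; simp

theorem sum_three (R : ℕ) : 1 + ∑ t ∈ range R, 3 * 2 ^ t ≤ 3 * 2 ^ R := by
  have h : ∑ t ∈ range R, 3 * 2 ^ t + 3 = 3 * 2 ^ R := by
    induction R with
    | zero => simp
    | succ R ih => rw [sum_range_succ, pow_succ]; omega
  omega

theorem ball_le {G : SimpleGraph V} (hG : G.Connected)
    (hcub : ∀ v, (G.neighborSet v).ncard = 3) (R : ℕ) (a : V) :
    (univ.filter fun b => G.dist b a ≤ R).card ≤ 3 * 2 ^ R := by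
  have hsub : (univ.filter fun b => G.dist b a ≤ R) ⊆ insert a ((range R).biUnion fun t =>
      (pf G (t + 1) a).image fun l => l.getLastD a) := by
    intro b hb
    rw [mem_filter] at hb
    obtain ⟨l, hl, hlb⟩ := exists_pf_dist hG a b
    rw [mem_insert]
    rcases Nat.eq_zero_or_pos (G.dist a b) with h0 | h0
    · left
      exact ((hG.dist_eq_zero_iff).1 h0).symm
    · right
      rw [mem_biUnion]
      have hd : G.dist b a = G.dist a b := G.dist_comm
      refine ⟨G.dist a b - 1, mem_range.2 (by omega), mem_image.2 ⟨l, ?_, ?_⟩⟩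
      · rw [Nat.sub_add_cancel h0]; exact hl
      · rw [List.getLastD_eq_getLast?, hlb]
        rfl
  refine (card_le_card hsub).trans ((card_insert_le _ _).trans ?_)
  have h1 : ((range R).biUnion fun t => (pf G (t + 1) a).image fun l => l.getLastD a).card ≤
      ∑ t ∈ range R, 3 * 2 ^ t :=
    card_biUnion_le.trans (sum_le_sum fun t _ => card_image_le.trans (pf_succ_card hcub t a))
  have h2 := sum_three R
  omega

end Pool.Agent.Lib.MP_fce888_co.C46
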