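import Mathlib

set_option autoImplicit false

/-!
# Independent choice with a union bound over pairs (method of conditional expectations)
-/

namespace Pool.Agent.Lib.MP_fce888_co.C46

open Finset
open scoped Classical

theorem exists_avg {α : Type} (S : Finset α) (w Φ : α → ℝ) (hw : ∀ a ∈ S, 0 ≤ w a)
    (hm : ∑ a ∈ S, w a = 1) (t : ℝ) (h : ∑ a ∈ S, w a * Φ a < t) :
    ∃ a ∈ S, 0 < w a ∧ Φ a < t := by
  by_contra hcon
  push Not at hcon
  have : t ≤ ∑ a ∈ S, w a * Φ a := by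
    calc t = ∑ a ∈ S, w a * t := by rw [← Finset.sum_mul, hm, one_mul]
      _ ≤ _ := by
        refine Finset.sum_le_sum fun a ha => ?_
        rcases (hw a ha).eq_or_lt with h0 | h0
        · rw [← h0]; simp
        · exact mul_le_mul_of_nonneg_left (hcon a ha h0) h0.le
  linarith

theorem exists_pick {X α : Type} [Nonempty α] (S : Finset α) (w : X → α → ℝ)
    (b : X → X → α → α → ℝ) (hb : ∀ x a a', b x x a a' = 0) (I : Finset X) :
    ∀ (c : X → α → ℝ) (t : ℝ),
    (∀ x ∈ I, ∀ a ∈ S, 0 ≤ w x a) → (∀ x ∈ I, ∑ a ∈ S, w x a = 1) →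
    ∑ x ∈ I, ∑ a ∈ S, w x a * c x a +
      ∑ x ∈ I, ∑ y ∈ I, ∑ a ∈ S, ∑ a' ∈ S, w x a * w y a' * b x y a a' < t →
    ∃ f : X → α, (∀ x ∈ I, f x ∈ S ∧ 0 < w x (f x)) ∧
      ∑ x ∈ I, c x (f x) + ∑ x ∈ I, ∑ y ∈ I, b x y (f x) (f y) < t := by
  induction I using Finset.induction_on with
  | empty =>
    intro c t _ _ h
    exact ⟨fun _ => Classical.arbitrary α, by simp, by simpa using h⟩
  | insert x0 J hx0 ih =>
    intro c t hw hm h
    set EJ : ℝ := ∑ x ∈ J, ∑ a ∈ S, w x a * c x a +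
      ∑ x ∈ J, ∑ y ∈ J, ∑ a ∈ S, ∑ a' ∈ S, w x a * w y a' * b x y a a' with hEJ
    have key : ∑ a ∈ S, w x0 a * (c x0 a +
        ∑ y ∈ J, ∑ a' ∈ S, w y a' * (b x0 y a a' + b y x0 a' a) + EJ) =
        ∑ x ∈ insert x0 J, ∑ a ∈ S, w x a * c x a +
      ∑ x ∈ insert x0 J, ∑ y ∈ insert x0 J, ∑ a ∈ S, ∑ a' ∈ S, w x a * w y a' * b x y a a' := by
      rw [Finset.sum_insert hx0, Finset.sum_insert hx0, Finset.sum_insert hx0]
      have e1 : ∑ a ∈ S, ∑ a' ∈ S, w x0 a * w x0 a' * b x0 x0 a a' = 0 := by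
        simp [hb]
      rw [e1]
      have e2 : ∑ x ∈ J, ∑ y ∈ insert x0 J, ∑ a ∈ S, ∑ a' ∈ S, w x a * w y a' * b x y a a' =
          ∑ x ∈ J, ∑ a ∈ S, ∑ a' ∈ S, w x a * w x0 a' * b x x0 a a' +
          ∑ x ∈ J, ∑ y ∈ J, ∑ a ∈ S, ∑ a' ∈ S, w x a * w y a' * b x y a a' := by
        rw [← Finset.sum_add_distrib]
        refine Finset.sum_congr rfl fun x _ => ?_
        rw [Finset.sum_insert hx0]
      rw [e2]
      have e3 : ∑ a ∈ S, w x0 a * (c x0 a +
          ∑ y ∈ J, ∑ a' ∈ S, w y a' * (b x0 y a a' + b y x0 a' a) + EJ) =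
          ∑ a ∈ S, w x0 a * c x0 a +
          ∑ a ∈ S, w x0 a * (∑ y ∈ J, ∑ a' ∈ S, w y a' * (b x0 y a a' + b y x0 a' a)) + EJ := by
        have : EJ = ∑ a ∈ S, w x0 a * EJ := by
          rw [← Finset.sum_mul, hm x0 (Finset.mem_insert_self _ _), one_mul]
        conv_rhs => rw [this]
        rw [← Finset.sum_add_distrib, ← Finset.sum_add_distrib]
        refine Finset.sum_congr rfl fun a _ => ?_
        ring
      rw [e3]
      have e4 : ∑ a ∈ S, w x0 a * (∑ y ∈ J, ∑ a' ∈ S, w y a' * (b x0 y a a' + b y x0 a' a)) =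
          ∑ y ∈ J, ∑ a ∈ S, ∑ a' ∈ S, w x0 a * w y a' * b x0 y a a' +
          ∑ x ∈ J, ∑ a ∈ S, ∑ a' ∈ S, w x a * w x0 a' * b x x0 a a' := by
        have e5 : ∑ x ∈ J, ∑ a ∈ S, ∑ a' ∈ S, w x a * w x0 a' * b x x0 a a' =
            ∑ x ∈ J, ∑ a ∈ S, ∑ a' ∈ S, w x a' * w x0 a * b x x0 a' a := by
          refine Finset.sum_congr rfl fun x _ => ?_
          rw [Finset.sum_comm]
        rw [e5, ← Finset.sum_add_distrib]
        simp_rw [Finset.mul_sum]
        rw [Finset.sum_comm]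
        refine Finset.sum_congr rfl fun y _ => ?_
        rw [← Finset.sum_add_distrib]
        refine Finset.sum_congr rfl fun a _ => ?_
        rw [← Finset.sum_add_distrib]
        refine Finset.sum_congr rfl fun a' _ => ?_
        ring
      rw [e4, hEJ]
      ring
    rw [← key] at h
    obtain ⟨a0, ha0S, ha0w, ha0⟩ := exists_avg S (w x0) _
      (hw x0 (Finset.mem_insert_self _ _)) (hm x0 (Finset.mem_insert_self _ _)) t h
    obtain ⟨f, hf, hft⟩ := ih (fun y a' => c y a' + (b x0 y a0 a' + b y x0 a' a0)) (t - c x0 a0)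
      (fun x hx => hw x (Finset.mem_insert_of_mem hx))
      (fun x hx => hm x (Finset.mem_insert_of_mem hx)) (by
        have e6 : ∑ x ∈ J, ∑ a ∈ S, w x a * (c x a + (b x0 x a0 a + b x x0 a a0)) =
            ∑ x ∈ J, ∑ a ∈ S, w x a * c x a +
            ∑ y ∈ J, ∑ a' ∈ S, w y a' * (b x0 y a0 a' + b y x0 a' a0) := by
          rw [← Finset.sum_add_distrib]
          refine Finset.sum_congr rfl fun x _ => ?_
          rw [← Finset.sum_add_distrib]
          refine Finset.sum_congr rfl fun a _ => ?_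
          ring
        rw [e6]
        rw [hEJ] at ha0
        linarith)
    refine ⟨Function.update f x0 a0, ?_, ?_⟩
    · intro x hx
      rcases Finset.mem_insert.1 hx with h1 | h1
      · subst h1
        simpa using ⟨ha0S, ha0w⟩
      · have : x ≠ x0 := fun h2 => hx0 (h2 ▸ h1)
        simpa [Function.update_of_ne this] using hf x h1
    · have hne : ∀ x ∈ J, Function.update f x0 a0 x = f x := fun x hx =>
        Function.update_of_ne (fun h2 : x = x0 => hx0 (h2 ▸ hx)) _ _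
      rw [Finset.sum_insert hx0, Finset.sum_insert hx0, Finset.sum_insert hx0, hb]
      simp only [Function.update_self]
      have e7 : ∑ x ∈ J, ∑ y ∈ insert x0 J,
          b x y (Function.update f x0 a0 x) (Function.update f x0 a0 y) =
          ∑ x ∈ J, b x x0 (f x) a0 + ∑ x ∈ J, ∑ y ∈ J, b x y (f x) (f y) := by
        rw [← Finset.sum_add_distrib]
        refine Finset.sum_congr rfl fun x hx => ?_
        rw [Finset.sum_insert hx0, hne x hx, Function.update_self]
        congr 1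
        refine Finset.sum_congr rfl fun y hy => ?_
        rw [hne y hy]
      have e8 : ∑ x ∈ J, c x (Function.update f x0 a0 x) = ∑ x ∈ J, c x (f x) :=
        Finset.sum_congr rfl fun x hx => by rw [hne x hx]
      have e9 : ∑ y ∈ J, b x0 y a0 (Function.update f x0 a0 y) = ∑ y ∈ J, b x0 y a0 (f y) :=
        Finset.sum_congr rfl fun x hx => by rw [hne x hx]
      rw [e7, e8, e9]
      simp only [Finset.sum_add_distrib] at hft
      linarith

/-- The version for events. -/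
theorem exists_pick_events {X α : Type} [Nonempty α] (S : Finset α) (w : X → α → ℝ)
    (I : Finset X) (hw : ∀ x ∈ I, ∀ a ∈ S, 0 ≤ w x a) (hm : ∀ x ∈ I, ∑ a ∈ S, w x a = 1)
    (Bad1 : X → α → Prop) (Bad2 : X → X → α → α → Prop) (p1 : X → ℝ) (p2 : X → X → ℝ)
    (h1 : ∀ x ∈ I, ∑ a ∈ S.filter (fun a => Bad1 x a), w x a ≤ p1 x)
    (h2 : ∀ x ∈ I, ∀ y ∈ I, x ≠ y → ∀ a' ∈ S,
      ∑ a ∈ S.filter (fun a => Bad2 x y a a'), w x a ≤ p2 x y)
    (hp2 : ∀ x ∈ I, ∀ y ∈ I, 0 ≤ p2 x y)
    (h : ∑ x ∈ I, p1 x + ∑ x ∈ I, ∑ y ∈ I, p2 x y < 1) :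
    ∃ f : X → α, (∀ x ∈ I, f x ∈ S ∧ 0 < w x (f x)) ∧ (∀ x ∈ I, ¬ Bad1 x (f x)) ∧
      ∀ x ∈ I, ∀ y ∈ I, x ≠ y → ¬ Bad2 x y (f x) (f y) := by
  obtain ⟨f, hf, hlt⟩ := exists_pick S w
    (fun x y a a' => if x = y then 0 else if Bad2 x y a a' then (1 : ℝ) else 0)
    (by intro x a a'; simp) I (fun x a => if Bad1 x a then (1 : ℝ) else 0) 1 hw hm (by
      refine lt_of_le_of_lt (add_le_add ?_ ?_) h
      · refine Finset.sum_le_sum fun x hx => ?_
        refine le_trans (le_of_eq ?_) (h1 x hx)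
        rw [Finset.sum_filter]
        refine Finset.sum_congr rfl fun a _ => ?_
        split_ifs <;> simp
      · refine Finset.sum_le_sum fun x hx => Finset.sum_le_sum fun y hy => ?_
        by_cases hxy : x = y
        · simp only [hxy, if_true, mul_zero, Finset.sum_const_zero]
          exact hp2 y hy y hy
        · simp only [hxy, if_false]
          rw [Finset.sum_comm]
          calc ∑ a' ∈ S, ∑ a ∈ S, w x a * w y a' * (if Bad2 x y a a' then (1 : ℝ) else 0)
              = ∑ a' ∈ S, w y a' * ∑ a ∈ S.filter (fun a => Bad2 x y a a'), w x a := by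
                refine Finset.sum_congr rfl fun a' _ => ?_
                rw [Finset.sum_filter, Finset.mul_sum]
                refine Finset.sum_congr rfl fun a _ => ?_
                split_ifs <;> ring
            _ ≤ ∑ a' ∈ S, w y a' * p2 x y := Finset.sum_le_sum fun a' ha' =>
                mul_le_mul_of_nonneg_left (h2 x hx y hy hxy a' ha') (hw y hy a' ha')
            _ = p2 x y := by rw [← Finset.sum_mul, hm y hy, one_mul])
  have n1 : ∀ x ∈ I, (0 : ℝ) ≤ if Bad1 x (f x) then (1 : ℝ) else 0 := by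
    intro x _; split_ifs <;> norm_num
  have n2 : ∀ x ∈ I, ∀ y ∈ I,
      (0 : ℝ) ≤ if x = y then 0 else if Bad2 x y (f x) (f y) then (1 : ℝ) else 0 := by
    intro x _ y _; split_ifs <;> norm_num
  refine ⟨f, hf, ?_, ?_⟩
  · intro x hx hbad
    have g1 := Finset.single_le_sum n1 hx
    have g2 : (0 : ℝ) ≤ ∑ x ∈ I, ∑ y ∈ I,
        (if x = y then 0 else if Bad2 x y (f x) (f y) then (1 : ℝ) else 0) :=
      Finset.sum_nonneg fun x hx => Finset.sum_nonneg fun y hy => n2 x hx y hy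
    simp only [hbad, if_true] at g1
    linarith
  · intro x hx y hy hxy hbad
    have g1 : (0 : ℝ) ≤ ∑ x ∈ I, (if Bad1 x (f x) then (1 : ℝ) else 0) := Finset.sum_nonneg n1
    have g2 : (1 : ℝ) ≤ ∑ x ∈ I, ∑ y ∈ I,
        (if x = y then 0 else if Bad2 x y (f x) (f y) then (1 : ℝ) else 0) := by
      have a1 := Finset.single_le_sum (f := fun x => ∑ y ∈ I,
        (if x = y then 0 else if Bad2 x y (f x) (f y) then (1 : ℝ) else 0))
        (fun x hx => Finset.sum_nonneg fun y hy => n2 x hx y hy) hx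
      have a2 := Finset.single_le_sum (f := fun y =>
        (if x = y then 0 else if Bad2 x y (f x) (f y) then (1 : ℝ) else 0))
        (fun y hy => n2 x hx y hy) hy
      simp only [hxy, hbad, if_true, if_false] at a1 a2
      linarith
    linarith

end Pool.Agent.Lib.MP_fce888_co.C46
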