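import Pool.Agent.Lib.MP_fce888_co.Iface
import Pool.Agent.Lib.MP_fce888_co.C46.Pick

set_option autoImplicit false

/-!
# MP_fce888_co, section 4.6: choice of the circuits `D_x`
-/

namespace Pool.Agent.Lib.MP_fce888_co.C46

open Finset Pool.Agent.Lib.MP_fce888_co
open scoped Classical

/-- `D` has a vertex in `U` -/
def Meets {V : Type} [Fintype V] (U : Finset V) (D : Finset (Sym2 V)) : Prop :=
  ∃ u ∈ vs D, u ∈ U

/-- union bound over a set of vertices -/
theorem sum_meet_le {V : Type} [Fintype V] (GG : Finset (Finset (Sym2 V)))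
    (f : Finset (Sym2 V) → ℝ) (hf : ∀ D ∈ GG, 0 ≤ f D) (U : Finset V) (p : ℝ)
    (hp : ∀ u ∈ U, ∑ D ∈ GG.filter (fun D => u ∈ vs D), f D ≤ p) :
    ∑ D ∈ GG.filter (fun D => Meets U D), f D ≤ U.card * p := by
  calc ∑ D ∈ GG.filter (fun D => Meets U D), f D
      ≤ ∑ D ∈ GG.filter (fun D => Meets U D), ∑ u ∈ U, if u ∈ vs D then f D else 0 := by
        refine Finset.sum_le_sum fun D hD => ?_
        obtain ⟨hD1, u, hu, hU⟩ := Finset.mem_filter.1 hD
        have h1 : ∀ u ∈ U, (0 : ℝ) ≤ if u ∈ vs D then f D else 0 := by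
          intro u _
          split_ifs
          · exact hf D hD1
          · exact le_refl _
        have h2 := Finset.single_le_sum h1 hU
        simpa [hu] using h2
    _ ≤ ∑ D ∈ GG, ∑ u ∈ U, if u ∈ vs D then f D else 0 := by
        refine Finset.sum_le_sum_of_subset_of_nonneg (Finset.filter_subset _ _) ?_
        intro D hD _
        refine Finset.sum_nonneg fun u _ => ?_
        split_ifs
        · exact hf D hD
        · exact le_refl _
    _ = ∑ u ∈ U, ∑ D ∈ GG.filter (fun D => u ∈ vs D), f D := by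
        rw [Finset.sum_comm]
        refine Finset.sum_congr rfl fun u _ => ?_
        rw [Finset.sum_filter]
    _ ≤ ∑ u ∈ U, p := Finset.sum_le_sum hp
    _ = U.card * p := by rw [Finset.sum_const, nsmul_eq_mul]

/-- size of a neighbourhood -/
theorem card_nbhd_le {V : Type} [Fintype V] (G : SimpleGraph V) (r4 : ℕ)
    (hball : ∀ w : V, (univ.filter fun u => G.dist u w ≤ r4).card ≤ 3 * 2 ^ r4)
    (W U : Finset V) (hU : ∀ u ∈ U, ∃ w ∈ W, G.dist u w ≤ r4) :
    U.card ≤ W.card * (3 * 2 ^ r4) := by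
  have h1 : U ⊆ W.biUnion fun w => univ.filter fun u => G.dist u w ≤ r4 := by
    intro u hu
    obtain ⟨w, hw, hd⟩ := hU u hu
    exact Finset.mem_biUnion.2 ⟨w, hw, Finset.mem_filter.2 ⟨Finset.mem_univ _, hd⟩⟩
  refine (Finset.card_le_card h1).trans ?_
  exact Finset.card_biUnion_le_card_mul _ _ _ fun w _ => hball w

theorem laws_main (V : Type) [Fintype V] (G : SimpleGraph V) (hconn : G.Connected)
    (GG : Finset (Finset (Sym2 V))) {X κ : Type} (L r r3 tc rho r4 s : ℕ) (T β : ℝ)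
    (hball : ∀ w : V, (univ.filter fun u => G.dist u w ≤ r4).card ≤ 3 * 2 ^ r4)
    (hGG : ∀ D ∈ GG, (vs D).card ≤ 2 * L) (Th : Finset (Sym2 V)) (hTh : (vs Th).card ≤ 4 * L)
    (A B : Finset X) (hs : (A ∪ B).card ≤ s) (hAB : Disjoint A B)
    (z : X → V) (cl : X → κ) (st : κ) (lx : X → Finset (Sym2 V) → ℝ)
    (h0 : ∀ x ∈ A ∪ B, ∀ D ∈ GG, 0 ≤ lx x D) (h1 : ∀ x ∈ A ∪ B, ∑ D ∈ GG, lx x D = 1)
    (hA : ∀ x ∈ A, ∀ u, ∑ D ∈ GG.filter (fun D => u ∈ vs D), lx x D ≤
      T * (1 / 2) ^ (min (G.dist u (z x)) r / 2))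
    (hB : ∀ x ∈ B, ∀ u, ∑ D ∈ GG.filter (fun D => u ∈ vs D), lx x D ≤ β)
    (c3 : ∀ x ∈ A, ∀ y ∈ A, G.dist (z x) (z y) ≤ tc → cl x = cl y)
    (c4 : ∀ x ∈ A, (∃ w ∈ vs Th, G.dist (z x) w ≤ r3) → cl x = st)
    (hT : 0 ≤ T) (hβ : 0 ≤ β) (n1 : r4 ≤ r3) (n2 : r3 ≤ rho + r4) (n3 : r4 ≤ tc)
    (n4 : tc ≤ 2 * rho + r4) (n5 : rho ≤ r)
    (num : (s : ℝ) * (4 * L) * (3 * 2 ^ r4) * (T * (1 / 2) ^ ((r3 - r4) / 2)) +
      (s : ℝ) ^ 2 * (2 * (2 * L)) * (3 * 2 ^ r4) * (T * (1 / 2) ^ ((tc - r4) / 4)) +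
      (s : ℝ) * (3 * 2 ^ r4) * β * (4 * L + 2 * L * s) < 1) :
    ∃ D : X → Finset (Sym2 V), (∀ x ∈ A ∪ B, D x ∈ GG ∧ 0 < lx x (D x)) ∧
      (∀ x ∈ A, ∀ u ∈ vs (D x), ∀ w ∈ vs Th, G.dist u w ≤ r4 →
        cl x = st ∧ G.dist u (z x) ≤ rho) ∧
      (∀ x ∈ A, ∀ y ∈ A, x ≠ y → ∀ u ∈ vs (D x), ∀ u' ∈ vs (D y), G.dist u u' ≤ r4 →
        cl x = cl y ∧ G.dist u (z x) ≤ rho ∧ G.dist u' (z y) ≤ rho) ∧
      (∀ x ∈ B, ∀ u ∈ vs (D x), ∀ w ∈ vs Th, r4 < G.dist u w) ∧
      (∀ x ∈ B, ∀ y ∈ A ∪ B, x ≠ y → ∀ u ∈ vs (D x), ∀ u' ∈ vs (D y), r4 < G.dist u u') := by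
  have hBA : ∀ x ∈ B, x ∉ A := fun x hx hxA => Finset.disjoint_left.1 hAB hxA hx
  have hbA : ∀ x ∈ A ∪ B, x ∉ A → x ∈ B := fun x hx hxA =>
    (Finset.mem_union.1 hx).resolve_left hxA
  set qA : ℝ := T * (1 / 2) ^ ((r3 - r4) / 2) with hqA
  set qP : ℝ := T * (1 / 2) ^ ((tc - r4) / 4) with hqP
  have hqA0 : 0 ≤ qA := by positivity
  have hqP0 : 0 ≤ qP := by positivity
  set bs : ℝ := 3 * 2 ^ r4 with hbs
  have hbs0 : 0 ≤ bs := by positivity
  -- the bad sets of vertices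
  set U1 : X → Finset V := fun x => univ.filter fun u =>
    (∃ w ∈ vs Th, G.dist u w ≤ r4) ∧ (x ∈ A → r3 - r4 ≤ G.dist u (z x)) with hU1
  set U2 : X → Finset (Sym2 V) → Finset V := fun x D' => univ.filter fun u =>
    (∃ w ∈ vs D', G.dist u w ≤ r4) ∧ (x ∈ A → (tc - r4) / 2 ≤ G.dist u (z x)) with hU2
  have hpow : ∀ a b : ℕ, a ≤ b → (1 / 2 : ℝ) ^ b ≤ (1 / 2) ^ a := fun a b hab =>
    pow_le_pow_of_le_one (by norm_num) (by norm_num) hab
  have hcast : ((3 * 2 ^ r4 : ℕ) : ℝ) = bs := by push_cast; rfl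
  obtain ⟨D, hD1, hD2, hD3⟩ := exists_pick_events GG lx (A ∪ B) h0 h1
    (fun x D => Meets (U1 x) D) (fun x y D D' => Meets (U2 x D') D)
    (fun x => (4 * L) * bs * (qA + β)) (fun x y => (2 * L) * bs * (qP + β))
    (by
      intro x hx
      refine (sum_meet_le GG (lx x) (h0 x hx) (U1 x) (qA + β) ?_).trans ?_
      · intro u hu
        obtain ⟨_, hu1, hu2⟩ := Finset.mem_filter.1 hu
        by_cases hxA : x ∈ A
        · have g1 := hA x hxA u
          have g2 : (r3 - r4) / 2 ≤ min (G.dist u (z x)) r / 2 := by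
            have := hu2 hxA
            have : r3 - r4 ≤ min (G.dist u (z x)) r := le_min this (by omega)
            omega
          have g3 := mul_le_mul_of_nonneg_left (hpow _ _ g2) hT
          linarith
        · have g1 := hB x (hbA x hx hxA) u
          linarith
      · have g1 : (U1 x).card ≤ (vs Th).card * (3 * 2 ^ r4) :=
          card_nbhd_le G r4 hball _ _ fun u hu => (Finset.mem_filter.1 hu).2.1
        have g2 : (U1 x).card ≤ 4 * L * (3 * 2 ^ r4) :=
          g1.trans (Nat.mul_le_mul_right _ hTh)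
        have g3 : ((U1 x).card : ℝ) ≤ (4 * L) * bs := by
          rw [← hcast]; exact_mod_cast g2
        exact mul_le_mul_of_nonneg_right g3 (by positivity))
    (by
      intro x hx y hy hxy D' hD'
      refine (sum_meet_le GG (lx x) (h0 x hx) (U2 x D') (qP + β) ?_).trans ?_
      · intro u hu
        obtain ⟨_, hu1, hu2⟩ := Finset.mem_filter.1 hu
        by_cases hxA : x ∈ A
        · have g1 := hA x hxA u
          have g2 : (tc - r4) / 4 ≤ min (G.dist u (z x)) r / 2 := by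
            have := hu2 hxA
            have : (tc - r4) / 2 ≤ min (G.dist u (z x)) r := le_min this (by omega)
            omega
          have g3 := mul_le_mul_of_nonneg_left (hpow _ _ g2) hT
          linarith
        · have g1 := hB x (hbA x hx hxA) u
          linarith
      · have g1 : (U2 x D').card ≤ (vs D').card * (3 * 2 ^ r4) :=
          card_nbhd_le G r4 hball _ _ fun u hu => (Finset.mem_filter.1 hu).2.1
        have g2 : (U2 x D').card ≤ 2 * L * (3 * 2 ^ r4) :=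
          g1.trans (Nat.mul_le_mul_right _ (hGG D' hD'))
        have g3 : ((U2 x D').card : ℝ) ≤ (2 * L) * bs := by
          rw [← hcast]; exact_mod_cast g2
        exact mul_le_mul_of_nonneg_right g3 (by positivity))
    (by intro x _ y _; positivity)
    (by
      simp only [Finset.sum_const, nsmul_eq_mul]
      have hc : ((A ∪ B).card : ℝ) ≤ s := by exact_mod_cast hs
      have hc0 : (0 : ℝ) ≤ ((A ∪ B).card : ℝ) := by positivity
      have k1 : ((A ∪ B).card : ℝ) * ((4 * L) * bs * (qA + β)) ≤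
          s * ((4 * L) * bs * (qA + β)) := mul_le_mul_of_nonneg_right hc (by positivity)
      have k2 : ((A ∪ B).card : ℝ) * (((A ∪ B).card : ℝ) * ((2 * L) * bs * (qP + β))) ≤
          s * (s * ((2 * L) * bs * (qP + β))) :=
        mul_le_mul hc (mul_le_mul_of_nonneg_right hc (by positivity)) (by positivity)
          (by positivity)
      have k3 : (0 : ℝ) ≤ (s : ℝ) ^ 2 * (2 * L) * bs * qP := by positivity
      nlinarith [k1, k2, k3, num])
  refine ⟨D, hD1, ?_, ?_, ?_, ?_⟩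
  · intro x hx u hu w hw hd
    have g := hD2 x (Finset.mem_union_left _ hx)
    have g1 : G.dist u (z x) < r3 - r4 := by
      by_contra hcon
      exact g ⟨u, hu, Finset.mem_filter.2 ⟨Finset.mem_univ _, ⟨w, hw, hd⟩, fun _ => by omega⟩⟩
    refine ⟨c4 x hx ⟨w, hw, ?_⟩, by omega⟩
    have := hconn.dist_triangle (u := z x) (v := u) (w := w)
    rw [G.dist_comm (u := z x) (v := u)] at this
    omega
  · intro x hx y hy hxy u hu u' hu' hd
    have ga := hD3 x (Finset.mem_union_left _ hx) y (Finset.mem_union_left _ hy) hxy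
    have gb := hD3 y (Finset.mem_union_left _ hy) x (Finset.mem_union_left _ hx) (Ne.symm hxy)
    have g1 : G.dist u (z x) < (tc - r4) / 2 := by
      by_contra hcon
      exact ga ⟨u, hu, Finset.mem_filter.2 ⟨Finset.mem_univ _, ⟨u', hu', hd⟩, fun _ => by omega⟩⟩
    have g2 : G.dist u' (z y) < (tc - r4) / 2 := by
      by_contra hcon
      exact gb ⟨u', hu', Finset.mem_filter.2 ⟨Finset.mem_univ _,
        ⟨u, hu, by rw [G.dist_comm]; exact hd⟩, fun _ => by omega⟩⟩
    refine ⟨c3 x hx y hy ?_, by omega, by omega⟩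
    have t1 := hconn.dist_triangle (u := z x) (v := u) (w := z y)
    have t2 := hconn.dist_triangle (u := u) (v := u') (w := z y)
    rw [G.dist_comm (u := z x) (v := u)] at t1
    omega
  · intro x hx u hu w hw
    by_contra hcon
    exact hD2 x (Finset.mem_union_right _ hx) ⟨u, hu, Finset.mem_filter.2
      ⟨Finset.mem_univ _, ⟨w, hw, by omega⟩, fun h => absurd h (hBA x hx)⟩⟩
  · intro x hx y hy hxy u hu u' hu'
    by_contra hcon
    exact hD3 x (Finset.mem_union_right _ hx) y hy hxy ⟨u, hu, Finset.mem_filter.2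
      ⟨Finset.mem_univ _, ⟨u', hu', by omega⟩, fun h => absurd h (hBA x hx)⟩⟩

end Pool.Agent.Lib.MP_fce888_co.C46
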