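import Pool.Agent.Lib.MP_fce888_co.C.Ifc
import Pool.Agent.Lib.MP_fce888_co.C46.Main
import Pool.Agent.Lib.MP_fce888_co.C46.Ball

set_option autoImplicit false

/-!
# MP_fce888_co, section 4.6: `LawStatement`
-/

namespace Pool.Agent.Lib.MP_fce888_co.C46

open Finset Pool.Agent.Lib.MP_fce888_co
open scoped Classical

theorem law : LawStatement := by
  intro V _ G hG hcub L r tc r3 r4 ρ s T0 ε Th X κ A B z cl st S f hAB hs hTh hSL hlaw hA hB c3 c4
    hT hε n1 n2 n3 n4 n5 num
  set GG : Finset (Finset (Sym2 V)) := (A ∪ B).biUnion S with hGG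
  have hsub : ∀ x ∈ A ∪ B, S x ⊆ GG := fun x hx => Finset.subset_biUnion_of_mem S hx
  have hsum : ∀ x ∈ A ∪ B, ∀ u : V,
      ∑ D ∈ GG.filter (fun D => u ∈ vs D), f x D =
        ∑ D ∈ (S x).filter (fun D => u ∈ vs D), f x D := by
    intro x hx u
    symm
    refine Finset.sum_subset (Finset.filter_subset_filter _ (hsub x hx)) ?_
    intro D hD hD'
    refine (hlaw x hx).supp D fun h => hD' (Finset.mem_filter.2 ⟨h, (Finset.mem_filter.1 hD).2⟩)
  obtain ⟨D, d1, d2, d3, d4, d5⟩ := laws_main V G hG GG L r r3 tc ρ r4 s T0 ε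
    (ball_le hG hcub r4)
    (by
      intro D hD
      obtain ⟨x, hx, hDx⟩ := Finset.mem_biUnion.1 hD
      exact hSL x hx D hDx) Th hTh A B hs hAB z cl st f
    (fun x hx D _ => (hlaw x hx).nonneg D)
    (by
      intro x hx
      rw [← (hlaw x hx).total]
      symm
      exact Finset.sum_subset (hsub x hx) fun D _ hD => (hlaw x hx).supp D hD)
    (by
      intro x hx u
      rw [hsum x (Finset.mem_union_left _ hx)]
      exact hA x hx u)
    (by
      intro x hx u
      rw [hsum x (Finset.mem_union_right _ hx)]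
      exact hB x hx u)
    c3 (by
      rintro x hx ⟨w, hw, hd⟩
      exact c4 x hx w hw hd) hT hε n1 n2 n3 n4 n5 num
  refine ⟨D, ?_, d2, ?_, d4, ?_⟩
  · intro x hx
    by_contra hcon
    exact (d1 x hx).2.ne' ((hlaw x hx).supp _ hcon)
  · intro x hx y hy hxy u hu w hw hd
    obtain ⟨g1, g2, _⟩ := d3 x hx y hy hxy u hu w hw hd
    exact ⟨g1, g2⟩
  · intro x hx y hy hyx u hu w hw
    exact d5 x hx y hy (Ne.symm hyx) u hu w hw

end Pool.Agent.Lib.MP_fce888_co.C46
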